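import Pool.Agent.MWKP.Stmts

/-!
# Row AGT of squad MWKP: agreement is an equivalence relation
-/

set_option autoImplicit false

namespace Pool.Agent.MWKP.H81

open Pool.Agent.Helper14_MV Pool.Agent.Helper2_MV Pool.Agent.MWK Pool.Agent.MWKP

theorem agt : AgtStmt := by
  intro m j hj
  refine ⟨?_, ?_, ?_⟩
  · intro u
    rcases j with _ | _ | e
    · exact ⟨fun _ _ _ => Iff.rfl, fun _ _ _ _ _ => Iff.rfl⟩
    · exact ⟨fun _ _ _ => Iff.rfl, fun _ _ _ _ _ => Iff.rfl⟩
    · exact ⟨fun _ _ _ => Iff.rfl, fun _ _ _ _ _ => Iff.rfl⟩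
  · intro u v h
    have hi := T.inv m u v
    rcases j with _ | _ | e
    · have h' : Ag (FF m v) u v := h
      exact h'.symm.weaken (fun y x i => (hi.1 h' y x i).1)
    · have h' : Ag (FB m v) u v := h
      exact h'.symm.weaken (fun y x i => (hi.2.1 h' y x i).1)
    · have h' : Ag (FD m (e + 1) v) u v := h
      exact h'.symm.weaken (fun y x i => (hi.2.2 (e + 1) (by omega) h' y x i).1)
  · intro u v w h1 h2
    have hi := T.inv m v w
    rcases j with _ | _ | e
    · have h1' : Ag (FF m v) u v := h1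
      have h2' : Ag (FF m w) v w := h2
      exact (h1'.weaken (fun y x i => (hi.1 h2' y x i).2)).trans h2'
    · have h1' : Ag (FB m v) u v := h1
      have h2' : Ag (FB m w) v w := h2
      exact (h1'.weaken (fun y x i => (hi.2.1 h2' y x i).2)).trans h2'
    · have h1' : Ag (FD m (e + 1) v) u v := h1
      have h2' : Ag (FD m (e + 1) w) v w := h2
      exact (h1'.weaken (fun y x i => (hi.2.2 (e + 1) (by omega) h2' y x i).2)).trans h2'

end Pool.Agent.MWKP.H81
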